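import Mathlib
import Pool.Agent.TH603.Chi.Main

/-!
# Measurable χ-functions on an interval

`(-A, A)` with `0 < A ≤ ∞`; `BoundedBy f C` says that the linear functional `e_λ ↦ f λ` on the
almost periodic polynomials with exponents in `(-A, A)` has norm at most `C` (for `C ≥ 0`).
-/

set_option autoImplicit false

open MeasureTheory

namespace Pool.Agent.Results.MP_410e25_an.MeasurableDecomposition

/-- The interval `(-A, A)`; `A = ⊤` gives the whole line. -/
def Ival (A : EReal) : Set ℝ := {x : ℝ | -A < (x : EReal) ∧ (x : EReal) < A}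

/-- The almost periodic polynomial `t ↦ ∑ c_λ e^{i λ t}`, the sum being over the finite set `s` of
exponents in `(-A, A)`. -/
noncomputable def poly {A : EReal} (s : Finset (Ival A)) (c : Ival A → ℂ) (t : ℝ) : ℂ :=
  ∑ l ∈ s, c l * Complex.exp (Complex.I * ((l : ℝ) : ℂ) * (t : ℂ))

/-- `|∑ c_λ f(λ)| ≤ C sup_t |∑ c_λ e^{i λ t}|` for all finite families of distinct exponents. -/
def BoundedBy {A : EReal} (f : Ival A → ℂ) (C : ℝ) : Prop :=
  ∀ (s : Finset (Ival A)) (c : Ival A → ℂ),
    ‖∑ l ∈ s, c l * f l‖ ≤ C * ⨆ t : ℝ, ‖poly s c t‖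

/-- `f ∈ R_A`. -/
def MemR {A : EReal} (f : Ival A → ℂ) : Prop := ∃ C : ℝ, BoundedBy f C

/-- `f ∈ R_A^c`: `f` is continuous and in `R_A`. -/
def MemRc {A : EReal} (f : Ival A → ℂ) : Prop := MemR f ∧ Continuous f

/-- Lebesgue measure on `(-A, A)`. -/
noncomputable def leb (A : EReal) : Measure (Ival A) :=
  Measure.comap (Subtype.val : Ival A → ℝ) volume

/-- `f ∈ R_A^m`: `f` is Lebesgue measurable and in `R_A`. -/
def MemRm {A : EReal} (f : Ival A → ℂ) : Prop := MemR f ∧ NullMeasurable f (leb A)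

open Pool.Agent.TH603.Chi

theorem isOpen_Ival (A : EReal) : IsOpen (Ival A) := by
  have h1 : IsOpen {x : ℝ | -A < (x : EReal)} :=
    isOpen_lt continuous_const continuous_coe_real_ereal
  have h2 : IsOpen {x : ℝ | (x : EReal) < A} :=
    isOpen_lt continuous_coe_real_ereal continuous_const
  exact h1.inter h2

theorem zero_mem {A : EReal} (hA : 0 < A) : (0 : ℝ) ∈ Ival A := by
  refine ⟨?_, by simpa using hA⟩
  rw [EReal.coe_zero, EReal.neg_lt_comm, neg_zero]
  exact hA

theorem bdd {A : EReal} (s : Finset (Ival A)) (c : Ival A → ℂ) :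
    BddAbove (Set.range fun t : ℝ => ‖poly s c t‖) := by
  refine ⟨∑ l ∈ s, ‖c l‖, ?_⟩
  rintro _ ⟨t, rfl⟩
  refine (norm_sum_le _ _).trans (Finset.sum_le_sum fun l _ => ?_)
  rw [norm_mul]
  have : ‖Complex.exp (Complex.I * ((l : ℝ) : ℂ) * (t : ℂ))‖ = 1 := by
    have e : Complex.I * ((l : ℝ) : ℂ) * (t : ℂ) = Complex.I * (((l : ℝ) * t : ℝ) : ℂ) := by
      push_cast; ring
    rw [e]; exact norm_e _
  rw [this, mul_one]

theorem nonneg_of_boundedBy {A : EReal} (hA : 0 < A) {f : Ival A → ℂ} {C : ℝ}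
    (h : BoundedBy f C) : 0 ≤ C := by
  have h1 := h {⟨0, zero_mem hA⟩} (fun _ => 1)
  have h2 : (⨆ t : ℝ, ‖poly {(⟨0, zero_mem hA⟩ : Ival A)} (fun _ => 1) t‖) = 1 := by
    have : ∀ t : ℝ, ‖poly {(⟨0, zero_mem hA⟩ : Ival A)} (fun _ => 1) t‖ = 1 := by
      intro t
      unfold poly
      simp
    simp only [this]
    exact ciSup_const
  rw [h2, mul_one] at h1
  exact (norm_nonneg _).trans h1

open Classical in
/-- extension by zero -/
noncomputable def ext0 {A : EReal} (f : Ival A → ℂ) (x : ℝ) : ℂ :=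
  if h : x ∈ Ival A then f ⟨x, h⟩ else 0

theorem ext0_coe {A : EReal} (f : Ival A → ℂ) (x : Ival A) : ext0 f x = f x := by
  unfold ext0
  rw [dif_pos x.2]

theorem poly_eq {A : EReal} (s : Finset (Ival A)) (c : Ival A → ℂ) (t : ℝ) :
    poly s c t = ∑ l ∈ s, c l * ex t l := by
  unfold poly ex
  refine Finset.sum_congr rfl fun l _ => ?_
  congr 2
  push_cast; ring

theorem HB_ext0 {A : EReal} (hA : 0 < A) {f : Ival A → ℂ} {C : ℝ} (h : BoundedBy f C) :
    HB (Ival A) (ext0 f) C := by
  classical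
  intro c hc M hM
  have hC := nonneg_of_boundedBy hA h
  have hsub : ∀ x ∈ c.support, x ∈ Ival A := fun x hx => (Finsupp.mem_supported ℂ c).1 hc hx
  have e1 : ∀ g : ℝ → ℂ, Finsupp.linearCombination ℂ g c =
      ∑ l ∈ c.support.subtype (fun x => x ∈ Ival A), c l * g l := by
    intro g
    rw [Finset.sum_subtype_of_mem (fun x : ℝ => c x * g x) hsub,
      Finsupp.linearCombination_apply, Finsupp.sum]
    simp only [smul_eq_mul]
  have h1 := h (c.support.subtype (fun x => x ∈ Ival A)) (fun l => c l)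
  rw [e1]
  simp only [ext0_coe]
  refine h1.trans (mul_le_mul_of_nonneg_left ?_ hC)
  refine ciSup_le fun t => ?_
  rw [poly_eq, ← e1]
  exact hM t

theorem locInt_ext0 {A : EReal} (hA : 0 < A) {f : Ival A → ℂ} {C : ℝ} (h : BoundedBy f C)
    (hm : NullMeasurable f (leb A)) : LocallyIntegrable (ext0 f) volume := by
  classical
  have hms : MeasurableSet (Ival A) := (isOpen_Ival A).measurableSet
  have h1 : AEMeasurable f (leb A) := hm.aemeasurable
  have h2 : AEMeasurable (ext0 f) (volume.restrict (Ival A)) := by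
    rw [← map_comap_subtype_coe hms, (MeasurableEmbedding.subtype_coe hms).aemeasurable_map_iff]
    have : ext0 f ∘ (Subtype.val : Ival A → ℝ) = f := funext fun x => ext0_coe f x
    rw [this]
    exact h1
  have h3 : AEMeasurable (ext0 f) volume := by
    have h4 := (aemeasurable_indicator_iff hms).2 h2
    have : (Ival A).indicator (ext0 f) = ext0 f := by
      ext x
      by_cases hx : x ∈ Ival A
      · rw [Set.indicator_of_mem hx]
      · rw [Set.indicator_of_notMem hx]
        unfold ext0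
        rw [dif_neg hx]
    rwa [this] at h4
  have hC := nonneg_of_boundedBy hA h
  refine (locallyIntegrable_const C).mono h3.aestronglyMeasurable (Filter.Eventually.of_forall ?_)
  intro x
  rw [Real.norm_of_nonneg hC]
  by_cases hx : x ∈ Ival A
  · have h5 := HB_ext0 hA h (Finsupp.single x 1) (Finsupp.single_mem_supported ℂ 1 hx) 1 (by
      intro t
      rw [Finsupp.linearCombination_single, one_smul, norm_ex])
    rwa [Finsupp.linearCombination_single, one_smul, mul_one] at h5
  · unfold ext0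
    rw [dif_neg hx, norm_zero]
    exact hC

/-- **Krein's question.** For every `0 < A ≤ ∞`, every Lebesgue measurable `f ∈ R_A` is the sum of
a continuous `fc ∈ R_A` and a measurable `fm ∈ R_A` that vanishes almost everywhere; moreover every
bound for the functional of `f` is a bound for the functional of `fc`. -/
theorem result (A : EReal) (hA : 0 < A) (f : Ival A → ℂ) (hf : MemRm f) :
    ∃ fc fm : Ival A → ℂ, f = fc + fm ∧ MemRc fc ∧ MemRm fm ∧ fm =ᵐ[leb A] 0 ∧
      ∀ C : ℝ, BoundedBy f C → BoundedBy fc C := by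
  classical
  obtain ⟨⟨C₀, hC₀⟩, hm⟩ := hf
  have hint := locInt_ext0 hA hC₀ hm
  obtain ⟨G, hG1, -, hG3⟩ := main (isOpen_Ival A) (HB_ext0 hA hC₀) hint
  have hms : MeasurableSet (Ival A) := (isOpen_Ival A).measurableSet
  -- every bound for `f` is a bound for `G`
  have hGb : ∀ C : ℝ, BoundedBy f C → BoundedBy (fun l : Ival A => G l) C := by
    intro C hC
    obtain ⟨G', hG1', hG2', hG3'⟩ := main (isOpen_Ival A) (HB_ext0 hA hC) hint
    have heq : ∀ x ∈ Ival A, G x = G' x := by
      have hae : ∀ᵐ x ∂(volume.restrict (Ival A)), G x = G' x := by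
        rw [ae_restrict_iff' hms]
        filter_upwards [hG3, hG3'] with x h1 h2 hx
        rw [← h1 hx, ← h2 hx]
      exact Measure.eqOn_open_of_ae_eq hae (isOpen_Ival A) hG1 hG1'
    intro s c
    have h1 := hG2' (∑ l ∈ s, Finsupp.single (l : ℝ) (c l))
      (Submodule.sum_mem _ fun l _ => Finsupp.single_mem_supported ℂ _ l.2)
      (⨆ t : ℝ, ‖poly s c t‖) (by
        intro t
        simp only [map_sum, Finsupp.linearCombination_single, smul_eq_mul]
        rw [← poly_eq]
        exact le_ciSup (bdd s c) t)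
    simp only [map_sum, Finsupp.linearCombination_single, smul_eq_mul] at h1
    have e : ∑ l ∈ s, c l * G l = ∑ l ∈ s, c l * G' l :=
      Finset.sum_congr rfl fun l _ => by rw [heq l l.2]
    rw [e]
    exact h1
  have hae : ∀ᵐ (l : Ival A) ∂(leb A), f l = G (l : ℝ) := by
    have h1 : ∀ᵐ x ∂(volume.restrict (Ival A)), ext0 f x = G x := by
      rw [ae_restrict_iff' hms]
      exact hG3
    have h2 := (ae_restrict_iff_subtype hms).1 h1
    have h3 : ∀ᵐ (l : Ival A) ∂(leb A), ext0 f (l : ℝ) = G (l : ℝ) := h2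
    filter_upwards [h3] with l hl
    rwa [ext0_coe] at hl
  have hfm0 : (fun l : Ival A => f l - G (l : ℝ)) =ᵐ[leb A] (0 : Ival A → ℂ) := by
    filter_upwards [hae] with l hl
    simp [hl]
  refine ⟨fun l => G l, fun l => f l - G l, ?_, ⟨⟨C₀, hGb C₀ hC₀⟩, ?_⟩, ⟨⟨C₀ + C₀, ?_⟩, ?_⟩,
    hfm0, hGb⟩
  · ext l
    simp
  · exact continuousOn_iff_continuous_domRestrict.1 hG1
  · intro s c
    have e : ∑ l ∈ s, c l * (f l - G l) = ∑ l ∈ s, c l * f l - ∑ l ∈ s, c l * G l := by
      rw [← Finset.sum_sub_distrib]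
      exact Finset.sum_congr rfl fun l _ => by ring
    rw [e, add_mul]
    exact (norm_sub_le _ _).trans (add_le_add (hC₀ s c) (hGb C₀ hC₀ s c))
  · exact (aemeasurable_const.congr hfm0.symm).nullMeasurable

end Pool.Agent.Results.MP_410e25_an.MeasurableDecomposition
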